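import Mathlib

set_option autoImplicit false

open MvPolynomial

namespace Pool.Agent.H12R3.ZP

/-- elementary symmetric polynomials are homogeneous -/
theorem esymm_hom (n k : ℕ) : (esymm (Fin n) ℤ k).IsHomogeneous k := by
  unfold esymm
  apply IsHomogeneous.sum
  intro s hs
  rw [Finset.mem_powersetCard] at hs
  have := IsHomogeneous.prod s (fun i => (X i : MvPolynomial (Fin n) ℤ)) (fun _ => 1)
    (fun i _ => isHomogeneous_X _ _)
  simpa [hs.2] using this

/-- the value of a homogeneous symmetric polynomial of degree `d` depends on the first `d`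
elementary symmetric functions only -/
theorem symm_eval (n d : ℕ) (f : MvPolynomial (Fin n) ℤ) (hs : f.IsSymmetric)
    (hh : f.IsHomogeneous d) {A : Type*} [CommRing A] (β γ : Fin n → A)
    (h : ∀ k, 1 ≤ k → k ≤ d →
      aeval β (esymm (Fin n) ℤ k) = aeval γ (esymm (Fin n) ℤ k)) :
    aeval β f = aeval γ f := by
  classical
  obtain ⟨F, hF⟩ := esymmAlgHom_surjective (σ := Fin n) (n := n) ℤ (by simp) ⟨f, hs⟩
  have hF' : aeval (fun i : Fin n => esymm (Fin n) ℤ (i + 1)) F = f := by
    rw [← esymmAlgHom_apply, hF]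
  let W : (Fin n →₀ ℕ) → ℕ := fun s => ∑ i : Fin n, ((i : ℕ) + 1) * s i
  let E : (Fin n →₀ ℕ) → MvPolynomial (Fin n) ℤ := fun s =>
    ∏ i : Fin n, (esymm (Fin n) ℤ ((i : ℕ) + 1)) ^ (s i)
  have hE : ∀ s, (E s).IsHomogeneous (W s) := by
    intro s
    apply IsHomogeneous.prod
    intro i _
    exact (esymm_hom n (i + 1)).pow (s i)
  have hsum : f = ∑ s ∈ F.support, C (F.coeff s) * E s := by
    conv_lhs => rw [← hF']
    rw [aeval_def, eval₂_eq']
    rfl
  have hcomp : f = ∑ s ∈ F.support, if W s = d then C (F.coeff s) * E s else 0 := by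
    have h1 : homogeneousComponent d f = f := homogeneousComponent_eq_self hh
    rw [← h1]
    conv_lhs => rw [hsum]
    rw [map_sum]
    apply Finset.sum_congr rfl
    intro s _
    have hm : C (F.coeff s) * E s ∈ homogeneousSubmodule (Fin n) ℤ (W s) := (hE s).C_mul _
    rw [homogeneousComponent_of_mem hm]
    by_cases hws : W s = d
    · simp [hws]
    · simp [hws, Ne.symm hws]
  rw [hcomp, map_sum, map_sum]
  apply Finset.sum_congr rfl
  intro s _
  split_ifs with hw
  · rw [map_mul, map_mul]
    congr 1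
    · simp
    · simp only [E, map_prod, map_pow]
      apply Finset.prod_congr rfl
      intro i _
      by_cases hi : s i = 0
      · simp [hi]
      · rw [h (i + 1) (by omega)]
        rw [← hw]
        calc (i : ℕ) + 1 ≤ ((i : ℕ) + 1) * s i := Nat.le_mul_of_pos_right _ (Nat.pos_of_ne_zero hi)
          _ ≤ W s := Finset.single_le_sum (f := fun i : Fin n => ((i : ℕ) + 1) * s i)
              (fun _ _ => Nat.zero_le _) (Finset.mem_univ i)
  · simp

/-- the sum of the Teichmüller representatives of the variables -/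
noncomputable def SS (p : ℕ) [Fact p.Prime] (n : ℕ) : WittVector p (MvPolynomial (Fin n) ℤ) :=
  ∑ i : Fin n, WittVector.teichmuller p (X i)

theorem ghost (p : ℕ) [Fact p.Prime] (n j : ℕ) :
    ∑ i ∈ Finset.range (j + 1), (p : MvPolynomial (Fin n) ℤ) ^ i *
      (SS p n).coeff i ^ p ^ (j - i) = ∑ i : Fin n, (X i : MvPolynomial (Fin n) ℤ) ^ p ^ j := by
  have h := congrArg (WittVector.ghostComponent (p := p) j) (rfl : SS p n = SS p n)
  conv_rhs at h => rw [SS, map_sum]
  simp only [WittVector.ghostComponent_teichmuller] at h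
  rw [← h, WittVector.ghostComponent_apply, aeval_wittPolynomial]

theorem coeff_props (p : ℕ) [Fact p.Prime] (n j : ℕ) :
    ((SS p n).coeff j).IsSymmetric ∧ ((SS p n).coeff j).IsHomogeneous (p ^ j) := by
  induction j using Nat.strong_induction_on with
  | _ j ih =>
  have hp : (p : ℤ) ^ j ≠ 0 := by
    have := (Fact.out : p.Prime).pos
    positivity
  have hkey : C ((p : ℤ) ^ j) * (SS p n).coeff j =
      ∑ i : Fin n, (X i : MvPolynomial (Fin n) ℤ) ^ p ^ j -
      ∑ i ∈ Finset.range j, C ((p : ℤ) ^ i) * (SS p n).coeff i ^ p ^ (j - i) := by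
    have h := ghost p n j
    rw [Finset.sum_range_succ] at h
    rw [← h]
    simp
  constructor
  · intro e
    have h2 : rename e (C ((p : ℤ) ^ j) * (SS p n).coeff j) =
        C ((p : ℤ) ^ j) * (SS p n).coeff j := by
      rw [hkey, map_sub, map_sum, map_sum]
      congr 1
      · simp only [map_pow, rename_X]
        exact Equiv.sum_comp e (fun i => (X i : MvPolynomial (Fin n) ℤ) ^ p ^ j)
      · apply Finset.sum_congr rfl
        intro i hi
        rw [map_mul, rename_C, map_pow (rename e) ((SS p n).coeff i),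
          (ih i (Finset.mem_range.1 hi)).1 e]
    rw [map_mul, rename_C] at h2
    exact mul_left_cancel₀ (by simpa using hp) h2
  · have h2 : (C ((p : ℤ) ^ j) * (SS p n).coeff j).IsHomogeneous (p ^ j) := by
      rw [hkey]
      apply IsHomogeneous.sub
      · apply IsHomogeneous.sum
        intro i _
        simpa using (isHomogeneous_X ℤ i).pow (p ^ j)
      · apply IsHomogeneous.sum
        intro i hi
        have hij := Finset.mem_range.1 hi
        apply IsHomogeneous.C_mul
        have := (ih i hij).2.pow (p ^ (j - i))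
        rwa [← pow_add, Nat.add_sub_cancel' hij.le] at this
    intro s hs
    apply h2
    rw [coeff_C_mul]
    exact mul_ne_zero hp hs

theorem coeff_teich_sum (p : ℕ) [Fact p.Prime] {A : Type*} [CommRing A] (n j : ℕ)
    (β : Fin n → A) :
    (∑ i, WittVector.teichmuller p (β i)).coeff j = aeval β ((SS p n).coeff j) := by
  have h : WittVector.map ((aeval β : MvPolynomial (Fin n) ℤ →ₐ[ℤ] A) : _ →+* A) (SS p n) =
      ∑ i, WittVector.teichmuller p (β i) := by
    rw [SS, map_sum]
    apply Finset.sum_congr rfl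
    intro i _
    rw [WittVector.map_teichmuller]
    simp
  rw [← h, WittVector.map_coeff]
  rfl

/-- the first Witt components of a sum of Teichmüller representatives only depend on the first
elementary symmetric functions -/
theorem main_fin (p : ℕ) [Fact p.Prime] {A : Type*} [CommRing A] (n m : ℕ) (β γ : Fin n → A)
    (h : ∀ k, 1 ≤ k → k ≤ p ^ (m - 1) →
      aeval β (esymm (Fin n) ℤ k) = aeval γ (esymm (Fin n) ℤ k)) (j : ℕ) (hj : j < m) :
    (∑ i, WittVector.teichmuller p (β i)).coeff j =
      (∑ i, WittVector.teichmuller p (γ i)).coeff j := by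
  rw [coeff_teich_sum, coeff_teich_sum]
  refine symm_eval n (p ^ j) _ (coeff_props p n j).1 (coeff_props p n j).2 β γ ?_
  intro k hk1 hk
  exact h k hk1 (hk.trans (Nat.pow_le_pow_right (Fact.out : p.Prime).pos (by omega)))

theorem exists_fin {A : Type*} (s : Multiset A) (n : ℕ) (hn : s.card = n) :
    ∃ β : Fin n → A, (Finset.univ : Finset (Fin n)).val.map β = s := by
  subst hn
  induction s using Quot.inductionOn with
  | h l =>
  refine ⟨fun i => l.get ⟨i, i.2⟩, ?_⟩
  rw [Fin.univ_val_map]
  simp

theorem sub_coeff_zero (p : ℕ) [Fact p.Prime] {A : Type*} [CommRing A] (m : ℕ)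
    (x y : WittVector p A) (h : ∀ j, j < m → x.coeff j = y.coeff j) :
    ∀ j, j < m → (x - y).coeff j = 0 := by
  have h1 : WittVector.truncate m x = WittVector.truncate m y := by
    apply TruncatedWittVector.ext
    intro i
    rw [WittVector.coeff_truncate, WittVector.coeff_truncate]
    exact h i i.2
  have h2 : WittVector.truncate m (x - y) = 0 := by rw [map_sub, h1, sub_self]
  intro j hj
  have h3 : TruncatedWittVector.coeff ⟨j, hj⟩ (WittVector.truncate m (x - y)) =
      TruncatedWittVector.coeff ⟨j, hj⟩ (0 : TruncatedWittVector p m A) := by rw [h2]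
  rw [WittVector.coeff_truncate] at h3
  rw [h3]
  simp

theorem theta (p : ℕ) [Fact p.Prime] (Ω : Type*) [Field Ω] [IsAlgClosed Ω] [Algebra (ZMod p) Ω]
    (m : ℕ) (P Q : Polynomial (ZMod p)) (hP : P.Monic) (hQ : Q.Monic)
    (hd : P.natDegree = Q.natDegree)
    (hc : ∀ i, i ≤ p ^ (m - 1) → i ≤ P.natDegree →
      P.coeff (P.natDegree - i) = Q.coeff (P.natDegree - i)) :
    ∀ j, j < m → (((P.aroots Ω).map (WittVector.teichmuller p)).sum -
      ((Q.aroots Ω).map (WittVector.teichmuller p)).sum).coeff j = 0 := by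
  have hcP : (P.aroots Ω).card = P.natDegree :=
    IsAlgClosed.card_aroots_eq_natDegree_of_leadingCoeff_ne_zero (by simp [hP.leadingCoeff])
  have hcQ : (Q.aroots Ω).card = P.natDegree := by
    rw [hd]
    exact IsAlgClosed.card_aroots_eq_natDegree_of_leadingCoeff_ne_zero (by simp [hQ.leadingCoeff])
  obtain ⟨β, hβ⟩ := exists_fin _ _ hcP
  obtain ⟨γ, hγ⟩ := exists_fin _ _ hcQ
  apply sub_coeff_zero
  intro j hj
  have hsum : ∀ δ : Fin P.natDegree → Ω, (((Finset.univ : Finset (Fin P.natDegree)).val.map
      δ).map (WittVector.teichmuller p)).sum = ∑ i, WittVector.teichmuller p (δ i) := by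
    intro δ
    rw [Multiset.map_map]
    rfl
  rw [← hβ, ← hγ, hsum, hsum]
  refine main_fin p _ m β γ ?_ j hj
  intro k hk1 hk
  rw [aeval_esymm_eq_multiset_esymm, aeval_esymm_eq_multiset_esymm, hβ, hγ]
  by_cases hkn : k ≤ P.natDegree
  · have e1 := Polynomial.coeff_eq_esymm_roots_of_card (p := P.map (algebraMap (ZMod p) Ω))
      (by rw [Polynomial.natDegree_map]; exact hcP) (k := P.natDegree - k)
      (by rw [Polynomial.natDegree_map]; omega)
    have e2 := Polynomial.coeff_eq_esymm_roots_of_card (p := Q.map (algebraMap (ZMod p) Ω))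
      (by rw [Polynomial.natDegree_map, ← hd]; exact hcQ) (k := P.natDegree - k)
      (by rw [Polynomial.natDegree_map]; omega)
    rw [Polynomial.natDegree_map] at e1 e2
    rw [← hd] at e2
    have hk' : P.natDegree - (P.natDegree - k) = k := by omega
    rw [hk', Polynomial.coeff_map, (hP.map _).leadingCoeff, one_mul] at e1
    rw [hk', Polynomial.coeff_map, (hQ.map _).leadingCoeff, one_mul, ← hc k hk hkn, e1] at e2
    have hu : ((-1 : Ω) ^ k) ≠ 0 := pow_ne_zero _ (by simp)
    exact mul_left_cancel₀ hu e2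
  · rw [not_le] at hkn
    have z1 : ∀ s : Multiset Ω, s.card = P.natDegree → s.esymm k = 0 := by
      intro s hs
      rw [Multiset.esymm, Multiset.powersetCard_eq_empty]
      · simp
      · omega
    rw [z1 _ hcP, z1 _ hcQ]

end Pool.Agent.H12R3.ZP
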