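import Pool.Agent.H680R3.ZP.Stmts
import Pool.Agent.H12R3.ZP.ThetaA

set_option autoImplicit false

namespace Pool.Agent.H12R3.ZP

theorem taskTheta : H680ZP.TaskTheta := by
  intro p _ m P Q hP hQ hd hc
  exact theta p (H680ZP.Om p) m P Q hP hQ hd hc

end Pool.Agent.H12R3.ZP
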